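import Pool.Agent.LibAF37.Main

/-!
A family of varieties over a base with good reduction, in linear algebra: if weight-monodromy holds for one
smooth fibre (or for the cohomology of the base with coefficients in the local systems of the family, hence for the
total space) then it holds for all smooth fibres and for the cohomology of the base with these coefficients.

`V` is the local system `R^m f_*` (semisimple as a module over `A`, the algebra of the monodromy of the base),
`N₁` its monodromy operator in the direction of the local field, `W` its weight filtration. The theories are the
cohomology of the fibres (`N₀` is the combination of the monodromy operators around the divisors of the base which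
the point of the base meets) and the cohomology of the base with coefficients in the summands of `V` (`N₀ = 0`).
-/

namespace Pool.Agent.Results.MP_6451f1_ag.AllFibres

open Pool.Agent.AF37

/-- If the theories `H i` of the family satisfy weight-monodromy, for `N₁ + N₀ i` and in degree `a i`, and no
idempotent `e ≠ 0` of `End_A V` kills all of them, then every theory `H'` does, for `N₁ + N₀'` and in degree `a'`. -/
theorem result {q : ℕ} (hq : 1 < q) {K A V : Type} [Field K] [CharZero K] [Ring A] [Algebra K A]
    [AddCommGroup V] [Module K V] [Module A V] [IsScalarTower K A V] [IsSemisimpleModule A V]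
    {W : ℤ → Submodule A V} {N₁ : Module.End A V} (hV : Family W N₁)
    {ι : Type} {H : ι → Type} [∀ i, AddCommGroup (H i)] [∀ i, Module K (H i)] [∀ i, FiniteDimensional K (H i)]
    [∀ i, Module (Module.End A V) (H i)] [∀ i, IsScalarTower K (Module.End A V) (H i)] {a : ι → ℤ}
    {N₀ F : ∀ i, Module.End K (H i)} (hT : ∀ i, Theory q W N₁ (a i) (N₀ i) (F i))
    (faithful : ∀ e : Module.End A V, e * e = e → (∀ i, ∀ x : H i, e • x = 0) → e = 0)
    (hWM : ∀ i, WM q (a i) (act K (H i) N₁ + N₀ i) (F i) ⊥ ⊤)
    {H' : Type} [AddCommGroup H'] [Module K H'] [FiniteDimensional K H'] [Module (Module.End A V) H']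
    [IsScalarTower K (Module.End A V) H'] {a' : ℤ} {N₀' F' : Module.End K H'}
    (hT' : Theory q W N₁ a' N₀' F') :
    WM q a' (act K H' N₁ + N₀') F' ⊥ ⊤ :=
  main hq hV hT faithful hWM hT'

end Pool.Agent.Results.MP_6451f1_ag.AllFibres
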