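import Pool.Agent.LibG4.Main

/-!
The p-adic weight-monodromy conjecture for `H^3` when `H^2` of the components is generated by
divisor classes, a part on which the restriction to the double surfaces is an element of a rational
algebra with positive involution, and classes which are compared by similitudes on the double
surfaces, with arbitrary dual graph, such that the comparison maps around closed paths lie in a
rational algebra with positive involution. This applies to threefolds with an elliptic fibration
and to threefolds fibred in abelian surfaces. More generally the weights of `gr_s` of `H^(k+3)` lie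
in `[k + 3 + s - δ, k + 3 + s + δ]`, `δ = max 0 (k - |s|)`, under the same condition on
`H^2 (Y^(k+1))`.
-/

namespace Pool.Agent.Results.MP_6451f1_ag.FibredThreefolds

open Pool.Agent.WM85 Pool.Agent.LibX1 Pool.Agent.LibX1C Pool.Agent.LibG4

theorem result {q n k : ℕ} (hq : 1 < q) (hkn : k + 3 ≤ n) {K H : Type} [Field K] [CharZero K]
    [AddCommGroup H] [Module K H] [FiniteDimensional K H] [Module ℚ H] [IsScalarTower ℚ K H]
    (Y : Strata q K H) (L : Module.End K H) (I : H →ₗ[K] H →ₗ[K] K)
    (A : ℕ → ℕ → Submodule ℚ H) (hA : Cycles n Y L I A) (U₀ : Submodule K H)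
    (P : H →ₗ[K] H →ₗ[K] K) (R : Type) [Ring R] [StarRing R] [Algebra ℚ R] [Module.Finite ℚ R]
    (π : R →+* Module.End K H) (δ : R) (hP : PositiveOn Y I U₀ P R π δ)
    {c : ℕ} (U : Fin c → Submodule K H) (g : H →ₗ[K] H →ₗ[K] K)
    {E : Type} [Fintype E] (res : E → Module.End K H) (μ : E → Fin c → ℚ)
    (hT : Glue Y I A k U₀ U g res μ) (hol : ∀ i, PosHol U res μ g i)
    {V : Type} [AddCommGroup V] [Module K V] (cl : (ℕ → H) →ₗ[K] V)
    (N F : Module.End K V) (hV : Y.Coh (k + 3) cl N F)
    (β : V →ₗ[K] V →ₗ[K] K) (hβF : ∀ x y, β (F x) (F y) = (q : K) ^ (k + 3) * β x y)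
    (hβ : ∀ x, (∀ y, β x y = 0) → x = 0)
    (M : ℤ → Submodule K V) (hM : IsMono N M) (s : ℤ) :
    WeightsGr q (k + 3 + s - max 0 (k - |s|)) (k + 3 + s + max 0 (k - |s|)) F M s := by
  have h1 := hV.weights hq hβF hβ hM (k + 1) ?_ s (max 0 (k - |s|)) (le_max_left _ _) ?_
  · push_cast at h1
    exact h1
  · intro t ht x hx h0
    rcases Nat.eq_zero_or_pos t with rfl | ht1
    · simpa using h0
    · refine hV.inj_of hq ht1 (fun j hj y hy hy0 => ?_) x hx h0
      rcases Nat.lt_or_ge j 2 with h2 | h2
      · exact Y.inj_of_zero (hP.1.inj (by omega) hy hy0)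
      · obtain rfl : j = 2 := by omega
        obtain rfl : t = k + 1 := by omega
        rw [Nat.add_sub_cancel] at hy
        obtain ⟨f, hf, h3, h4⟩ := hT.row2 hkn hA hP hol hy hy0
        have h5 := Y.inj_of_gamma (s := k + 1) (j := 0) hf h3 h4
        have h6 : k + 1 + 1 + 0 + 1 = k + 3 := by omega
        rwa [h6] at h5
  · have := abs_nonneg s
    push_cast
    omega

end Pool.Agent.Results.MP_6451f1_ag.FibredThreefolds
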