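import Pool.Agent.LibND37.Final2

/-!
The fibres near a strictly semistable fibre over a local field whose strata satisfy weight-monodromy.
-/

namespace Pool.Agent.Results.MP_6451f1_ag.NearbyFibres

open Pool.Agent.ND37 TensorProduct

/-- Let `Y` be the cohomology of the strata of a strictly semistable fibre over a local field (spaces
`gr k j = H^j (Y^(k+1))`, operators `N`, `frob` of the local field), whose extension to the complex numbers carries Hodge
theory, and let `V` be the limit cohomology of degree `m` of a family with the fibre `Y`, with the monodromy operators `N₀`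
around the fibre and `N₁` of the local field. If weight-monodromy holds for `gr k j` in degree `j` when `|k + j - m| ≤ 1`, it
holds for `N₁ + v N₀` on `V` in degree `m`, for all but finitely many `v`. -/
theorem result {q : ℕ} (hq : 1 < q) {K : Type} [Field K] [Algebra K ℂ] {H : Type}
    [AddCommGroup H] [Module K H] [FiniteDimensional K H] (Y : Fibre q K H) (n : ℕ)
    (conj : (ℂ ⊗[K] H) →ₛₗ[starRingEnd ℂ] (ℂ ⊗[K] H))
    (hpq : ℕ → ℕ → ℕ → Submodule ℂ (ℂ ⊗[K] H)) (L : Module.End K H)
    (I : (ℂ ⊗[K] H) →ₗ[ℂ] (ℂ ⊗[K] H) →ₗ[ℂ] ℂ)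
    (h : Hodge (fun k j => (Y.gr k j).baseChange ℂ) (Y.rho.baseChange ℂ) (Y.gamma.baseChange ℂ)
      n conj hpq (L.baseChange ℂ) I) (m : ℕ)
    (hY : ∀ k j : ℕ, |(k : ℤ) + j - m| ≤ 1 → WM q j Y.N Y.frob (Y.gr k j))
    {V : Type} [AddCommGroup V] [Module K V] [FiniteDimensional K V] (N₀ N₁ F : Module.End K V)
    (W : ℤ → Submodule K V) (cl : ℤ → (ℕ → H) →ₗ[K] V) (hV : Y.Limit m N₀ N₁ F W cl) :
    {v : K | ¬ WM q m (N₁ + v • N₀) F ⊤}.Finite :=
  hV.nearby_hodge hq h hY

end Pool.Agent.Results.MP_6451f1_ag.NearbyFibres
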