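import Pool.Agent.LibX1.Rows

/-!
The weights of the graded pieces of the monodromy filtration of `H^m`, if the Hodge-Riemann
relations hold for the cohomology of the strata in degrees `≤ r`: the weights of `gr_s` lie in
`[m + s - δ, m + s + δ]`, where `δ = max 0 (m - 1 - r - |s|)`. In particular `gr_s` is pure of weight
`m + s` for `|s| ≥ m - 1 - r`. For `r = 1` the hypothesis holds for all varieties.
-/

namespace Pool.Agent.Results.MP_6451f1_ag.OuterSteps

open Pool.Agent.WM85 Pool.Agent.LibX1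

theorem result {q : ℕ} (hq : 1 < q) {K H : Type} [Field K] [CharZero K] [AddCommGroup H]
    [Module K H] [FiniteDimensional K H] (Y : Strata q K H)
    (r : ℕ) (Λ : Module.End K H) (R : Type) [Ring R] [StarRing R] [Algebra ℚ R]
    [Module.Finite ℚ R] (τ : R →ₗ[ℚ] ℚ) (π : R →+* Module.End K H) (e : ℕ → ℕ → R) (u v : R)
    (hR : Y.HodgeRiemann r Λ τ π e u v)
    (m : ℕ) {V : Type} [AddCommGroup V] [Module K V] (cl : (ℕ → H) →ₗ[K] V)
    (N F : Module.End K V) (hV : Y.Coh m cl N F)
    (β : V →ₗ[K] V →ₗ[K] K) (hβF : ∀ x y, β (F x) (F y) = (q : K) ^ m * β x y)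
    (hβ : ∀ x, (∀ y, β x y = 0) → x = 0)
    (M : ℤ → Submodule K V) (hM : IsMono N M) (s : ℤ) :
    WeightsGr q (m + s - max 0 (m - 1 - r - |s|)) (m + s + max 0 (m - 1 - r - |s|)) F M s := by
  refine hV.weights hq hβF hβ hM (m - r) ?_ s _ (le_max_left _ _) ?_
  · intro t ht x hx h0
    exact hV.inj_of_hodgeRiemann hR hq (by omega) x hx h0
  · have := abs_nonneg s
    omega

end Pool.Agent.Results.MP_6451f1_ag.OuterSteps
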